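import Pool.Agent.Helper21.TR.SpinEig
import Pool.Agent.Helper37.OR.FW
import Pool.Agent.Helper88.OR.ExDefs

/-!
Sharpness of the orthogonal theorem: the spin representations.
-/

set_option linter.unusedSimpArgs false
set_option linter.unusedSectionVars false

open Module MTPairs MTP

namespace OR

section orbit
variable {K : Type*} [Field K] {m : Type*} [Fintype m] [DecidableEq m]

/-- **Orthogonal pairs from an orbit, trivial symmetries.** -/
theorem orth_of_orbit_self [CharZero K] {J : Matrix m m K} (h1 : J.transpose = J)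
    (h2 : J.det ≠ 0) (N : Subgroup (Matrix.GeneralLinearGroup m K)) (π : Matrix m m K)
    (hN : ∀ P ∈ OrbN N π, P ∈ LagSet J) (hG : N ≤ GenG (OrbN N π))
    (hirr : ∀ U : Submodule K (m → K), (∀ P ∈ OrbN N π, ∀ v ∈ U, P.mulVec v ∈ U) →
      U = ⊥ ∨ U = ⊤) :
    IsOrthPair ⊥ J (GenG (OrbN N π)) π where
  symm := h1
  det := h2
  sim := by
    intro g hg
    have hle : GenG (OrbN N π) ≤ Sim J := by
      apply GenG_le (Sim_closed h2)
      intro P hP
      obtain ⟨hπ, hJ⟩ := hN P hP
      refine ⟨hπ, fun t ht => ?_⟩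
      refine ⟨⟨t • P + (1 - P), t⁻¹ • P + (1 - P), torus_mul hπ ht, ?_⟩, ?_, rfl⟩
      · have := torus_mul hπ (inv_ne_zero ht)
        rwa [inv_inv] at this
      · exact ⟨t, ht, torus_sim hπ hJ t⟩
    obtain ⟨c, -, hc⟩ := hle hg
    exact ⟨c, hc⟩
  closed := GenG_closed _
  irr := by
    intro U hU
    apply hirr
    intro P hP v hv
    obtain ⟨g, hg, hgt⟩ := (GenG_cochar (hN P hP).1 hP).2 2 two_ne_zero
    have h1 := hU g hg v hv
    have h2 : (g : Matrix _ _ K).mulVec v = P.mulVec v + v := by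
      rw [hgt]
      have : (2 : K) • P + (1 - P) = P + 1 := by rw [two_smul]; abel
      rw [this, Matrix.add_mulVec, Matrix.one_mulVec]
    rw [h2] at h1
    have := U.sub_mem h1 hv
    rwa [add_sub_cancel_right] at this
  semi := by
    intro θ hθ
    rw [Subgroup.mem_bot] at hθ
    subst hθ
    exact ⟨RingEquiv.refl K, fun v w => rfl, fun c v => rfl⟩
  norm := by
    intro θ hθ g hg
    rw [Subgroup.mem_bot] at hθ
    subst hθ
    exact ⟨g, hg, fun v => rfl⟩
  coch := GenG_cochar (hN _ (OrbN_self N π)).1 (OrbN_self N π)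
  gen := by
    intro H hH hc
    apply GenG_le hH
    rintro _ ⟨h, hh, rfl⟩
    apply hc
    refine ⟨1, Subgroup.one_mem _, h, hG hh, fun v => ?_⟩
    rw [Equiv.Perm.one_apply, Equiv.Perm.one_apply, Matrix.mulVec_mulVec, Matrix.mulVec_mulVec,
      mul_assoc, GL_inv_mul, mul_one]

end orbit

namespace FS

open TRSpin

variable {K : Type*} [Field K] {n : ℕ}

lemma prod_sg (hn : n % 4 = 0 ∨ n % 4 = 3) :
    ∏ k : Fin n, (-1 : K) ^ (k.val + (n + 1) + 1) = 1 := by
  rw [Finset.prod_pow_eq_pow_sum, Fin.sum_univ_eq_sum_range (fun k => k + (n + 1) + 1) n]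
  have h1 : (∑ k ∈ Finset.range n, (k + (n + 1) + 1)) * 2 = n * (n - 1) + 2 * (n * (n + 2)) := by
    simp only [Finset.sum_add_distrib, Finset.sum_const, Finset.card_range, smul_eq_mul]
    rw [add_mul, add_mul, Finset.sum_range_id_mul_two]
    ring
  have h2 : Even (∑ k ∈ Finset.range n, (k + (n + 1) + 1)) := by
    generalize (∑ k ∈ Finset.range n, (k + (n + 1) + 1)) = s at h1
    rw [Nat.even_iff]
    rcases hn with hn | hn
    · obtain ⟨q, rfl⟩ : ∃ q, n = 4 * q := ⟨n / 4, by omega⟩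
      rcases Nat.eq_zero_or_pos q with rfl | hq
      · omega
      · obtain ⟨q, rfl⟩ : ∃ r, q = r + 1 := ⟨q - 1, by omega⟩
        have e : 4 * (q + 1) - 1 = 4 * q + 3 := by omega
        rw [e] at h1
        ring_nf at h1
        have : s * 2 = 2 * (2 * (15 + q * 27 + q ^ 2 * 12)) := by rw [h1]; ring
        omega
    · obtain ⟨q, rfl⟩ : ∃ q, n = 4 * q + 3 := ⟨n / 4, by omega⟩
      have e : 4 * q + 3 - 1 = 4 * q + 2 := by omega
      rw [e] at h1
      ring_nf at h1
      have : s * 2 = 2 * (2 * (9 + q * 21 + q ^ 2 * 12)) := by rw [h1]; ring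
      omega
  exact h2.neg_one_pow

lemma JS_t (hn : n % 4 = 0 ∨ n % 4 = 3) : (JS K n).transpose = JS K n := by
  rw [JS, Tn_transpose]
  ext x y
  have := prod_sg (K := K) hn
  simp only [Tn, Jf_t, Matrix.smul_apply, smul_eq_mul, Finset.prod_mul_distrib, this, one_mul]

lemma JS_sq (hn : n % 4 = 0 ∨ n % 4 = 3) : JS K n * JS K n = 1 := by
  rw [JS, Tn_mul, ← Tn_one]
  ext x y
  have := prod_sg (K := K) hn
  simp only [Tn, Jf_sq, Matrix.smul_apply, smul_eq_mul, Finset.prod_mul_distrib, this, one_mul]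

lemma JS_det (hn : n % 4 = 0 ∨ n % 4 = 3) : (JS K n).det ≠ 0 := by
  intro h0
  have h1 := congrArg Matrix.det (JS_sq (K := K) hn)
  rw [Matrix.det_mul, h0, zero_mul, Matrix.det_one] at h1
  exact one_ne_zero h1.symm

/-! ### The space of Clifford vectors is normalised -/

/-- The torus elements normalise the space of Clifford vectors. -/
theorem hyp_nrmV {m : Type*} [Fintype m] [DecidableEq m] {V : Submodule K (Matrix m m K)}
    (hV : IsCliff V) {P : Matrix m m K} (hP : P ∈ HypSet V) : IsCochar (Nrm V) P := by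
  obtain ⟨x, hx, y, hy, h1, h2, h3, rfl⟩ := hP
  have hPP := hyp_idem h1 h3
  refine ⟨hPP, fun t ht => ⟨⟨t • (x * y) + (1 - x * y), t⁻¹ • (x * y) + (1 - x * y),
    torus_mul hPP ht, by
    have := torus_mul hPP (inv_ne_zero ht)
    rwa [inv_inv] at this⟩, ?_, rfl⟩⟩
  have ha := torus_mul hPP ht
  intro v hv
  change (t • (x * y) + (1 - x * y)) * v * (t⁻¹ • (x * y) + (1 - x * y)) ∈ V
  obtain ⟨α, hα⟩ := hV v hv y hy
  obtain ⟨β, hβ⟩ := hV v hv x hx
  set g := t • (x * y) + (1 - x * y) with hg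
  set g' := t⁻¹ • (x * y) + (1 - x * y) with hg'
  have c1 : g * x = t • x := by
    rw [hg, add_mul, smul_mul_assoc, sub_mul, one_mul, xyx h1 h3, sub_self, add_zero]
  have c2 : x * g' = x := by
    rw [hg', mul_add, mul_smul_comm, mul_sub, mul_one, ← mul_assoc, h1, zero_mul, smul_zero,
      sub_zero, zero_add]
  have c3 : g * y = y := by
    rw [hg, add_mul, smul_mul_assoc, sub_mul, one_mul, mul_assoc, h2, mul_zero, smul_zero,
      sub_zero, zero_add]
  have c4 : y * g' = t⁻¹ • y := by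
    rw [hg', mul_add, mul_smul_comm, mul_sub, mul_one, ← mul_assoc, yxy h2 h3, sub_self,
      add_zero]
  set u := v - α • x - β • y with hu
  have d1 : u * x + x * u = 0 := by
    calc u * x + x * u = (v * x + x * v) - α • (x * x + x * x) - β • (x * y + y * x) := by
          rw [hu]
          simp only [sub_mul, mul_sub, smul_mul_assoc, mul_smul_comm]
          module
      _ = 0 := by rw [hβ, h1, h3]; simp
  have d2 : u * y + y * u = 0 := by
    calc u * y + y * u = (v * y + y * v) - α • (x * y + y * x) - β • (y * y + y * y) := by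
          rw [hu]
          simp only [sub_mul, mul_sub, smul_mul_assoc, mul_smul_comm]
          module
      _ = 0 := by rw [hα, h2, h3]; simp
  have f1 : u * x = -(x * u) := eq_neg_of_add_eq_zero_left d1
  have f2 : u * y = -(y * u) := eq_neg_of_add_eq_zero_left d2
  have f3 : u * (x * y) = x * y * u := by
    rw [← mul_assoc, f1, neg_mul, mul_assoc, f2, mul_neg, neg_neg, mul_assoc]
  have e : v = u + α • x + β • y := by rw [hu]; abel
  have hmem : u ∈ V := V.sub_mem (V.sub_mem hv (V.smul_mem _ hx)) (V.smul_mem _ hy)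
  clear_value u
  have f4 : g * u * g' = u := by
    have : g * u = u * g := by
      rw [hg, add_mul, mul_add, smul_mul_assoc, mul_smul_comm, f3, sub_mul, mul_sub, f3,
        one_mul, mul_one]
    rw [this, mul_assoc, ha, mul_one]
  clear_value g g'
  have e2 : g * v * g' = u + (α * t) • x + (β * t⁻¹) • y := by
    rw [e, mul_add, mul_add, add_mul, add_mul, f4, mul_smul_comm, mul_smul_comm, c1, c3,
      smul_mul_assoc, smul_mul_assoc, smul_mul_assoc, c2, c4, smul_smul, smul_smul]
  rw [e2]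
  exact V.add_mem (V.add_mem hmem (V.smul_mem _ hx)) (V.smul_mem _ hy)

/-- A linear relation between the entries of the Clifford vectors. -/
lemma VS_rel {k : ℕ} {v : Matrix (Sx (k + 2)) (Sx (k + 2)) K} (hv : v ∈ VS K (k + 2))
    {p r p' r' : Sx (k + 2)} (hp : p 0 = 0) (hr : r 0 = 1) (hp' : p' 0 = 0) (hr' : r' 0 = 1)
    (h : ∀ i, i ≠ 0 → p i = r i) (h' : ∀ i, i ≠ 0 → p' i = r' i) : v p r = v p' r' := by
  induction hv using Submodule.span_induction with
  | mem v hv =>
    rcases hv with ⟨j, B, hB, rfl⟩ | rfl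
    · by_cases hj : j = 0
      · subst hj
        have key : ∀ p r : Sx (k + 2), p 0 = 0 → r 0 = 1 → (∀ i, i ≠ 0 → p i = r i) →
            (jw 0 B : Matrix (Sx (k + 2)) (Sx (k + 2)) K) p r = B 0 1 := by
          intro p r hp hr h
          change ∏ i : Fin (k + 2), (if i < 0 then Zm K else if i = 0 then B else 1) (p i) (r i) = _
          rw [Finset.prod_eq_single (0 : Fin (k + 2))]
          · rw [if_neg (lt_irrefl _), if_pos rfl, hp, hr]
          · intro i _ hi
            rw [if_neg (Fin.not_lt_zero i), if_neg hi, h i hi, Matrix.one_apply_eq]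
          · intro h; exact absurd (Finset.mem_univ _) h
        rw [key p r hp hr h, key p' r' hp' hr' h']
      · have key : ∀ p r : Sx (k + 2), p 0 = 0 → r 0 = 1 →
            (jw j B : Matrix (Sx (k + 2)) (Sx (k + 2)) K) p r = 0 := by
          intro p r hp hr
          refine Finset.prod_eq_zero (Finset.mem_univ (0 : Fin (k + 2))) ?_
          change (if (0 : Fin (k + 2)) < j then Zm K else if 0 = j then B else 1) (p 0) (r 0) = 0
          rw [if_pos (Fin.pos_of_ne_zero hj), hp, hr]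
          simp [Zm]
        rw [key p r hp hr, key p' r' hp' hr']
    · have key : ∀ p r : Sx (k + 2), p 0 = 0 → r 0 = 1 →
          (g0 K (k + 2)) p r = 0 := by
        intro p r hp hr
        refine Finset.prod_eq_zero (Finset.mem_univ (0 : Fin (k + 2))) ?_
        change Zm K (p 0) (r 0) = 0
        rw [hp, hr]
        simp [Zm]
      rw [key p r hp hr, key p' r' hp' hr']
  | zero => rfl
  | add a b _ _ ha hb => rw [Matrix.add_apply, Matrix.add_apply, ha, hb]
  | smul c a _ ha => rw [Matrix.smul_apply, Matrix.smul_apply, ha]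

lemma JS_far {n : ℕ} {x y : Sx n} {i : Fin n} (h : x i = y i) : JS K n x y = 0 := by
  refine Finset.prod_eq_zero (Finset.mem_univ i) ?_
  rw [h]
  generalize y i = a
  change Jf K _ a a = 0
  unfold Jf
  split_ifs <;> fin_cases a <;> simp [Xm, Ym]

/-! ### The group -/

section group
variable [CharZero K] {k : ℕ}

/-- The spin group. -/
abbrev GSpin (K : Type*) [Field K] (k : ℕ) :
    Subgroup (Matrix.GeneralLinearGroup (Sx (k + 2)) K) :=
  GenG (OH (VS K (k + 2)) (x0 K k) (y0 K k))

lemma hsub : ∀ P ∈ OH (VS K (k + 2)) (x0 K k) (y0 K k), P ∈ HypSet (VS K (k + 2)) :=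
  fun _ hP => OH_hyp VS_cliff (jw_mem 0 mem_cm) (jw_mem 0 mem_am) x0_sq y0_sq x0_y0 hP

lemma hEN : EN (VS K (k + 2)) (x0 K k) (y0 K k) ≤ GSpin K k := EN_le_gen x0_sq y0_sq x0_y0

theorem orth (hn : (k + 2) % 4 = 0 ∨ (k + 2) % 4 = 3) :
    IsOrthPair ⊥ (JS K (k + 2)) (GSpin K k) (x0 K k * y0 K k) := by
  have hee : (-1 : K) ^ (k + 2) * (-1 : K) ^ (k + 2) = 1 := by
    rw [← mul_pow]; simp
  exact orth_of_orbit_self (JS_t hn) (JS_det hn) _ _ (fun P hP => hyp_lag hee JS_VS (hsub P hP))
    hEN (fun U hU => spin_irr U hU)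

lemma hquad : ∀ w ∈ VS K (k + 2), w * x0 K k + x0 K k * w = 0 → w * y0 K k + y0 K k * w = 0 →
    ∀ r, (x0 K k * w).rank = r → ∃ u ∈ GSpin K k,
      IsQuadraticOn u (⊤ : Submodule K (Sx (k + 2) → K)) r := by
  intro w hw hwx hwy r hr
  have hz := eich_sq x0_sq hwx
  obtain ⟨u, hu⟩ := unip_ex hz
  refine ⟨u, hEN (Subgroup.subset_closure ⟨w, hw, hwx, hwy, Or.inl hu⟩), ?_, ?_⟩
  · intro v _
    rw [hu, add_sub_cancel_left, Matrix.mulVec_mulVec, hz, Matrix.zero_mulVec]
  · rw [hu, add_sub_cancel_left, Submodule.map_top, ← Matrix.rank, hr]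

/-- The values of the diagonal matrix. -/
def tf (K : Type*) [Field K] (k : ℕ) (p : Sx (k + 2)) : K :=
  if p = (fun _ => 0) then 2 else if p = (fun _ => 1) then 2⁻¹ else 1

lemma tf_zero : tf K k (fun _ => 0) = 2 := if_pos rfl

lemma fne : (fun _ => 1 : Sx (k + 2)) ≠ (fun _ => 0) := by
  intro h
  have := congrFun h 0
  simp at this

lemma tf_one : tf K k (fun _ => 1) = 2⁻¹ := by
  unfold tf
  rw [if_neg fne, if_pos rfl]

lemma tf_ne (p : Sx (k + 2)) : tf K k p ≠ 0 := by
  unfold tf
  split_ifs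
  · exact two_ne_zero
  · exact inv_ne_zero two_ne_zero
  · exact one_ne_zero

lemma tf_other {p : Sx (k + 2)} (h0 : p ≠ fun _ => 0) (h1 : p ≠ fun _ => 1) : tf K k p = 1 := by
  unfold tf
  rw [if_neg h0, if_neg h1]

lemma tf_compl {x y : Sx (k + 2)} (h : ∀ i, x i ≠ y i) : tf K k x * tf K k y = 1 := by
  have h2 : ∀ i, y i = 1 - x i := by
    intro i
    have := h i
    generalize x i = a at *
    generalize y i = b at *
    fin_cases a <;> fin_cases b <;> simp at this ⊢
  by_cases hx0 : x = fun _ => 0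
  · have : y = fun _ => 1 := by funext i; rw [h2, hx0]; rfl
    rw [hx0, this, tf_zero, tf_one, mul_inv_cancel₀ two_ne_zero]
  · by_cases hx1 : x = fun _ => 1
    · have : y = fun _ => 0 := by funext i; rw [h2, hx1]; rfl
      rw [hx1, this, tf_zero, tf_one, inv_mul_cancel₀ two_ne_zero]
    · rw [tf_other hx0 hx1, tf_other, one_mul]
      · intro hy
        apply hx1
        funext i
        have h3 := h2 i
        have h4 := congrFun hy i
        generalize x i = a at *
        rw [h3] at h4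
        fin_cases a <;> simp at h4 ⊢
      · intro hy
        apply hx0
        funext i
        have h3 := h2 i
        have h4 := congrFun hy i
        generalize x i = a at *
        rw [h3] at h4
        fin_cases a <;> simp at h4 ⊢

lemma tf_prod : ∏ p : Sx (k + 2), tf K k p = 1 := by
  have h : ∀ p : Sx (k + 2), tf K k p =
      (if p = (fun _ => 0) then 2 else 1) * (if p = (fun _ => 1) then 2⁻¹ else 1) := by
    intro p
    unfold tf
    by_cases h0 : p = fun _ => 0
    · rw [if_pos h0, if_pos h0, if_neg (fun h => fne (h.symm.trans h0)), mul_one]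
    · rw [if_neg h0, if_neg h0, one_mul]
  rw [Finset.prod_congr rfl (fun p _ => h p), Finset.prod_mul_distrib,
    Finset.prod_ite_eq' Finset.univ (fun _ => 0 : Sx (k + 2)) (fun _ => (2 : K)),
    Finset.prod_ite_eq' Finset.univ (fun _ => 1 : Sx (k + 2)) (fun _ => (2⁻¹ : K)),
    if_pos (Finset.mem_univ _), if_pos (Finset.mem_univ _), mul_inv_cancel₀ two_ne_zero]

/-- The group does not contain the special orthogonal group. -/
theorem not_so (hk : 1 ≤ k) : ¬ ContainsSO (JS K (k + 2)) (GSpin K k) := by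
  intro hfull
  have hab : Matrix.diagonal (tf K k) * Matrix.diagonal (fun p => (tf K k p)⁻¹) = 1 := by
    rw [Matrix.diagonal_mul_diagonal, ← Matrix.diagonal_one]
    congr 1
    funext p
    exact mul_inv_cancel₀ (tf_ne p)
  have hba : Matrix.diagonal (fun p => (tf K k p)⁻¹) * Matrix.diagonal (tf K k) = 1 := by
    rw [Matrix.diagonal_mul_diagonal, ← Matrix.diagonal_one]
    congr 1
    funext p
    exact inv_mul_cancel₀ (tf_ne p)
  let t : Matrix.GeneralLinearGroup (Sx (k + 2)) K :=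
    ⟨Matrix.diagonal (tf K k), Matrix.diagonal (fun p => (tf K k p)⁻¹), hab, hba⟩
  have ht : t ∈ GSpin K k := by
    apply hfull t
    · change (Matrix.diagonal (tf K k)).transpose * JS K (k + 2) * Matrix.diagonal (tf K k) = _
      rw [Matrix.diagonal_transpose]
      ext x y
      rw [Matrix.mul_diagonal, Matrix.diagonal_mul]
      by_cases h : ∃ i, x i = y i
      · obtain ⟨i, hi⟩ := h
        rw [JS_far hi, mul_zero, zero_mul]
      · push Not at h
        rw [mul_assoc, mul_comm (JS K (k + 2) x y), ← mul_assoc, tf_compl h, one_mul]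
    · change (Matrix.diagonal (tf K k)).det = 1
      rw [Matrix.det_diagonal, tf_prod]
  have hle : GSpin K k ≤ Nrm (VS K (k + 2)) :=
    GenG_le (Nrm_closed _) (fun P hP => hyp_nrmV VS_cliff (hsub P hP))
  have hZ := hle ht (jw 0 (am K)) (jw_mem 0 mem_am)
  change Matrix.diagonal (tf K k) * jw 0 (am K) * Matrix.diagonal (fun p => (tf K k p)⁻¹) ∈ _
    at hZ
  have h2 : (2 : ℕ) < k + 2 := by omega
  have h10 : (1 : Fin 2) ≠ 0 := by decide
  have h01 : (0 : Fin 2) ≠ 1 := by decide
  set z : Sx (k + 2) := fun _ => 0 with hz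
  set z' : Sx (k + 2) := fun i => if i = 0 then 1 else 0 with hz'
  set p : Sx (k + 2) := fun i => if i = 1 then 1 else 0 with hp
  set p' : Sx (k + 2) := fun i => if i = 0 then 1 else if i = 1 then 1 else 0 with hp'
  have hrel := VS_rel hZ (p := z) (r := z') (p' := p) (r' := p') rfl (by simp [hz'])
    (by simp [hp]) (by simp [hp']) (by intro i hi; simp [hz, hz', hi])
    (by intro i hi; simp [hp, hp', hi])
  have key : ∀ p r : Sx (k + 2), p 0 = 0 → r 0 = 1 → (∀ i, i ≠ 0 → p i = r i) →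
      (jw 0 (am K) : Matrix (Sx (k + 2)) (Sx (k + 2)) K) p r = 1 := by
    intro p r hp hr h
    change ∏ i : Fin (k + 2), (if i < 0 then Zm K else if i = 0 then am K else 1) (p i)
      (r i) = _
    rw [Finset.prod_eq_single (0 : Fin (k + 2))]
    · rw [if_neg (lt_irrefl _), if_pos rfl, hp, hr]
      simp [am]
    · intro i _ hi
      rw [if_neg (Fin.not_lt_zero i), if_neg hi, h i hi, Matrix.one_apply_eq]
    · intro h; exact absurd (Finset.mem_univ _) h
  rw [Matrix.mul_diagonal, Matrix.diagonal_mul, Matrix.mul_diagonal, Matrix.diagonal_mul,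
    key z z' rfl (by simp [hz']) (by intro i hi; simp [hz, hz', hi]),
    key p p' (by simp [hp]) (by simp [hp']) (by intro i hi; simp [hp, hp', hi])] at hrel
  have t1 : tf K k z = 2 := tf_zero
  have t2 : tf K k z' = 1 := by
    apply tf_other
    · intro h
      have := congrFun h 0
      simp [hz'] at this
    · intro h
      have := congrFun h 1
      simp [hz'] at this
  have t3 : tf K k p = 1 := by
    apply tf_other
    · intro h
      have := congrFun h 1
      simp [hp] at this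
    · intro h
      have := congrFun h 0
      simp [hp] at this
  have t4 : tf K k p' = 1 := by
    apply tf_other
    · intro h
      have := congrFun h 0
      simp [hp'] at this
    · intro h
      have := congrFun h ⟨2, h2⟩
      have e0 : (⟨2, h2⟩ : Fin (k + 2)) ≠ 0 := by
        intro h; have := congrArg Fin.val h; simp at this
      have e1 : (⟨2, h2⟩ : Fin (k + 2)) ≠ 1 := by
        intro h; have := congrArg Fin.val h; simp at this
      simp [hp', e0, e1] at this
  rw [t1, t2, t3, t4] at hrel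
  norm_num at hrel

/-- Rank `2 ^ k` and two eigenvalues. -/
theorem bad_two : ∃ u ∈ GSpin K k, ∃ g ∈ GSpin K k, IsBadEig u g ⊤ (2 ^ k) 2 := by
  have hmem : ∀ z w : Matrix (Sx (k + 2)) (Sx (k + 2)) K, w ∈ VS K (k + 2) → w * x0 K k + x0 K k * w = 0 →
      w * y0 K k + y0 K k * w = 0 → (z = x0 K k * w ∨ z = y0 K k * w) →
      ∃ u ∈ GSpin K k, (u : Matrix _ _ K) = 1 + z := by
    intro z w hw hwx hwy hz
    rcases hz with rfl | rfl
    · obtain ⟨u, hu⟩ := unip_ex (eich_sq x0_sq hwx)
      exact ⟨u, hEN (Subgroup.subset_closure ⟨w, hw, hwx, hwy, Or.inl hu⟩), hu⟩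
    · obtain ⟨u, hu⟩ := unip_ex (eich_sq y0_sq hwy)
      exact ⟨u, hEN (Subgroup.subset_closure ⟨w, hw, hwx, hwy, Or.inr hu⟩), hu⟩
  have hX : ∀ s : K, ∃ u ∈ GSpin K k, (u : Matrix _ _ K) = 1 + s • TRSpin.EE K k := by
    intro s
    have a1 := jw_orth (K := K) (one_ne (k := k)) mem_am mem_cm
    have a2 := jw_orth (K := K) (one_ne (k := k)) mem_am mem_am
    refine hmem _ (s • jw 1 (am K)) ((VS K (k + 2)).smul_mem _ (jw_mem 1 mem_am)) ?_ ?_ (Or.inl ?_)
    · rw [smul_mul_assoc, mul_smul_comm, ← smul_add, a1, smul_zero]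
    · rw [smul_mul_assoc, mul_smul_comm, ← smul_add, a2, smul_zero]
    · rw [mul_smul_comm, EE_eq]
  have hY : ∀ s : K, ∃ u ∈ GSpin K k, (u : Matrix _ _ K) = 1 + s • TRSpin.FF K k := by
    intro s
    have a1 := jw_orth (K := K) (one_ne (k := k)) mem_cm mem_cm
    have a2 := jw_orth (K := K) (one_ne (k := k)) mem_cm mem_am
    refine hmem _ ((-s) • jw 1 (cm K)) ((VS K (k + 2)).smul_mem _ (jw_mem 1 mem_cm)) ?_ ?_ (Or.inr ?_)
    · rw [smul_mul_assoc, mul_smul_comm, ← smul_add, a1, smul_zero]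
    · rw [smul_mul_assoc, mul_smul_comm, ← smul_add, a2, smul_zero]
    · rw [mul_smul_comm, FF_eq, smul_neg, neg_smul, neg_neg]
  obtain ⟨g1, hg1, e1⟩ := hX 2
  obtain ⟨g2, hg2, e2⟩ := hY (-(1 / 2))
  obtain ⟨g3, hg3, e3⟩ := hX 1
  obtain ⟨g4, hg4, e4⟩ := hY 1
  obtain ⟨g5, hg5, e5⟩ := hX (-1)
  have hg : ((g1 * g2 * g3 * g4 * g5 : Matrix.GeneralLinearGroup (Sx (k + 2)) K) :
      Matrix (Sx (k + 2)) (Sx (k + 2)) K) =
      Matrix.diagonal (fun p : Sx (k + 2) => (2 : K) ^ eS p) := by
    rw [Units.val_mul, Units.val_mul, Units.val_mul, Units.val_mul, e1, e2, e3, e4, e5,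
      torus_prod EE_sq FF_sq EFE FEF, torus_diag]
  obtain ⟨u, hu, eu⟩ := hmem _ (z1 K k) (jw_mem 1 mem_cm) (jw_orth one_ne mem_cm mem_cm)
      (jw_orth one_ne mem_cm mem_am) (Or.inl rfl)
  refine ⟨u, hu, g1 * g2 * g3 * g4 * g5, Subgroup.mul_mem _ (Subgroup.mul_mem _
    (Subgroup.mul_mem _ (Subgroup.mul_mem _ hg1 hg2) hg3) hg4) hg5, ?_⟩
  have eN : (u : Matrix (Sx (k + 2)) (Sx (k + 2)) K) - 1 = x0 K k * z1 K k := by
    rw [eu, add_sub_cancel_left]
  have h10 : ((1 : Fin 2) ≠ 0) := by decide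
  refine TR.isBadEig_of_diag eS hg
    (Finset.univ.filter fun p : Sx (k + 2) => ¬ (p 0 = 0 ∧ p 1 = 0))
    (Finset.univ.filter fun p : Sx (k + 2) => p 0 = 1 ∧ p 1 = 1)
    ?_ ?_ ?_ (e0 := 0) ?_ (by positivity) ?_ ?_
  · rw [eN]; exact ker_xz
  · rw [eN]; exact map_xz
  · intro p hp
    rw [Finset.mem_filter] at hp ⊢
    refine ⟨hp.1, fun h => ?_⟩
    rw [hp.2.1] at h
    exact h10 h.1
  · intro p hp
    rw [Finset.mem_filter] at hp
    unfold eS
    rw [if_neg (fun h => h10 (hp.2.2.symm.trans h.2)),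
      if_neg (fun h => h10 (hp.2.1.symm.trans h.1))]
  · rw [← card_Sp2 (k := k), Fintype.card_of_subtype]
    intro p
    rw [Finset.mem_filter]
    exact ⟨fun h => h.2, fun h => ⟨Finset.mem_univ _, h⟩⟩
  · have himg : (((Finset.univ.filter fun p : Sx (k + 2) => ¬ (p 0 = 0 ∧ p 1 = 0)) \
        (Finset.univ.filter fun p : Sx (k + 2) => p 0 = 1 ∧ p 1 = 1)).image eS) =
        {1, -1} := by
      ext z
      rw [Finset.mem_image, Finset.mem_insert, Finset.mem_singleton]
      constructor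
      · rintro ⟨p, hp, rfl⟩
        rw [Finset.mem_sdiff, Finset.mem_filter, Finset.mem_filter] at hp
        obtain ⟨⟨-, h1⟩, h2⟩ := hp
        have c0 : p 0 = 0 ∨ p 0 = 1 := by
          generalize p 0 = a
          fin_cases a <;> simp
        have c1 : p 1 = 0 ∨ p 1 = 1 := by
          generalize p 1 = a
          fin_cases a <;> simp
        unfold eS
        rcases c0 with c0 | c0 <;> rcases c1 with c1 | c1
        · exact absurd ⟨c0, c1⟩ h1
        · right
          rw [if_neg (fun h => h10 (h.1.symm.trans c0)), if_pos ⟨c0, c1⟩]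
        · left
          rw [if_pos ⟨c0, c1⟩]
        · exact absurd ⟨Finset.mem_univ _, c0, c1⟩ h2
      · rintro (rfl | rfl)
        · refine ⟨fun i => if i = 0 then 1 else 0, ?_, ?_⟩
          · rw [Finset.mem_sdiff, Finset.mem_filter, Finset.mem_filter]
            exact ⟨⟨Finset.mem_univ _, by simp⟩, by simp⟩
          · unfold eS
            rw [if_pos]
            simp
        · refine ⟨fun i => if i = 0 then 0 else 1, ?_, ?_⟩
          · rw [Finset.mem_sdiff, Finset.mem_filter, Finset.mem_filter]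
            exact ⟨⟨Finset.mem_univ _, by simp⟩, by simp⟩
          · unfold eS
            rw [if_neg (by simp), if_pos]
            simp
    rw [himg]
    rfl

theorem bad_one : ∃ u ∈ GSpin K k, ∃ g ∈ GSpin K k, IsBadEig u g ⊤ (2 ^ k) 1 := by
  obtain ⟨u, hu, h⟩ := hquad _ (jw_mem 1 mem_cm) (jw_orth one_ne mem_cm mem_cm)
      (jw_orth one_ne mem_cm mem_am) _ (rank_xz (K := K) (k := k))
  have h1 := OR.FW.isBadEig_one (by positivity) h
  have hpos : 0 < 2 ^ k := by positivity
  rw [if_neg (by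
    rw [Fintype.card_fun, Fintype.card_fin, Fintype.card_fin, pow_add]
    omega)] at h1
  exact ⟨u, hu, 1, Subgroup.one_mem _, h1⟩

theorem bad_zero : ∃ u ∈ GSpin K k, ∃ g ∈ GSpin K k, IsBadEig u g ⊤ (2 ^ (k + 1)) 0 := by
  obtain ⟨u, hu, h⟩ := hquad _ g0_mem (g0_orth 0 mem_cm) (g0_orth 0 mem_am) _
    (rank_xg (K := K) (k := k))
  have h1 := OR.FW.isBadEig_one (by positivity) h
  rw [if_pos (by
    rw [Fintype.card_fun, Fintype.card_fin, Fintype.card_fin, pow_add, pow_add]
    omega)] at h1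
  exact ⟨u, hu, 1, Subgroup.one_mem _, h1⟩

end group

end FS

open TRSpin in
/-- FS: the spin representation of the group of type `B_n`, `n` congruent to `0` or `3`. -/
theorem hasOrth_spin (K : Type*) [Field K] [CharZero K] {n : ℕ} (hn : n % 4 = 0 ∨ n % 4 = 3)
    (hn3 : 3 ≤ n) :
    HasOrth K (2 ^ (n - 2)) 1 (2 ^ n) ∧ HasOrth K (2 ^ (n - 2)) 2 (2 ^ n) ∧
    HasOrth K (2 ^ (n - 1)) 0 (2 ^ n) := by
  obtain ⟨k, rfl⟩ : ∃ k, n = k + 2 := ⟨n - 2, by omega⟩
  have hk : 1 ≤ k := by omega
  have hc : Fintype.card (Sx (k + 2)) = 2 ^ (k + 2) := by simp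
  have e1 : k + 2 - 2 = k := rfl
  have e2 : k + 2 - 1 = k + 1 := rfl
  rw [e1, e2]
  exact ⟨⟨Sx (k + 2), inferInstance, inferInstance, JS K (k + 2), FS.GSpin K k, _, hc, FS.orth hn,
      FS.bad_one, FS.not_so hk⟩,
    ⟨Sx (k + 2), inferInstance, inferInstance, JS K (k + 2), FS.GSpin K k, _, hc, FS.orth hn,
      FS.bad_two, FS.not_so hk⟩,
    ⟨Sx (k + 2), inferInstance, inferInstance, JS K (k + 2), FS.GSpin K k, _, hc, FS.orth hn,
      FS.bad_zero, FS.not_so hk⟩⟩

end OR
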